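import Pool.Agent.helper4.T7.SpecR

set_option autoImplicit false

/-! Row t7:RUF (MP_16912e_nt): the tuples with `p ∣ R` (copy of helper67/T6/EUB.lean with one type) -/

namespace Pool.Agent.T7

open Finset Pool.Agent.helper3.FT Pool.Agent.T5 Pool.Agent.T6

open Classical in
/-- one block -/
theorem RUF_blk (hRPC : RPC_stmt) (hRSN : RSN_stmt) (y₀ B : ℕ) (C₀ τ : ℝ)
    (hy₀ : 5 ≤ y₀) (hC₀ : 1 ≤ C₀) (hτ : 0 < τ) (hτ1 : τ ≤ 1 / 100)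
    (hLFS : ∀ b : ℝ, 1 ≤ b → ∀ u : ℕ, ∑ p ∈ PR y₀ u, (√(2 ^ u) / lamb b p.1 p.2) ^ (3 / 2 : ℝ) ≤
      C₀ * (1 + b ^ B * (2 : ℝ) ^ (-(τ * u))) * 4 ^ u) :
    ∃ C₂ C₃ : ℝ, 1 ≤ C₂ ∧ 1 ≤ C₃ ∧ ∀ (N K L L' T p : ℕ) (b ρ V : ℝ),
      RB N K L L' T p b ρ → p.Prime → b ^ B ≤ (T : ℝ) ^ τ → 0 < V →
      64 * T * V ≤ p * ((N : ℝ) ^ 3 * K) →
      ∀ F : Finset Tpl, (∀ t ∈ F, IsT t ∧ (N < 2 * t.1.1 ∧ t.1.1 ≤ N ∧ K < 2 * t.1.2 ∧ t.1.2 ≤ K) ∧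
        (p : ℤ) ∣ RR t ∧ ¬ p ∣ t.1.1 ∧ |(t.2.1 : ℝ)| ≤ L ∧ |(t.2.2.1 : ℝ)| ≤ L' ∧
        0 < t.2.2.2 ∧ (t.2.2.2 : ℝ) ≤ V) →
      (F.card : ℝ) ≤ C₂ * ((N : ℝ) * K * (L * L' / T)) +
        C₃ * (1 / (T : ℝ) * (√(L * L' : ℝ) * (T * (N * K) + ρ ^ (3 / 2 : ℝ) *
          ((T : ℝ) ^ (5 / 4 : ℝ) + N * K * (T : ℝ) ^ (1 / 4 : ℝ))))) := by
  obtain ⟨CU, hCU, hU⟩ := hRPC
  obtain ⟨CS, hCS, hS⟩ := hRSN y₀ B C₀ τ hy₀ hC₀ hτ hτ1 hLFS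
  refine ⟨CU, 2 * CU * CS, hCU, by nlinarith, ?_⟩
  intro N K L L' T p b ρ V hRB hp hbB hV hTV F hF
  have hp1 : 1 ≤ p := hp.one_lt.le
  have hT1 : (1 : ℝ) ≤ T := by exact_mod_cast hRB.T1
  have hT0 : (0 : ℝ) < T := by linarith
  have hN0 : (0 : ℝ) < N := by exact_mod_cast hRB.N1
  have hK0 : (0 : ℝ) < K := by exact_mod_cast hRB.K1
  have hL0 : (0 : ℝ) < L := by exact_mod_cast hRB.L1
  have hL0' : (0 : ℝ) < L' := by exact_mod_cast hRB.L1'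
  have hp0 : (0 : ℝ) < p := by exact_mod_cast hp1
  have hρ := hRB.ρ0
  obtain ⟨W, hW⟩ : ∃ W : Finset (ℕ × ℕ), W = (pairs N K 1).filter (fun q => Nat.Coprime q.1 p) :=
    ⟨_, rfl⟩
  have hWsub : W ⊆ pairs N K 1 := by
    rw [hW]
    exact filter_subset _ _
  have hex : ∀ q ∈ W, ∃ a : ℤ × ℤ × ℤ, ResG q.1 q.2 1 1 1 p a.1 a.2.1 a.2.2 ∧ ∀ F' : Finset Tpl,
      (∀ t ∈ F', IsT t ∧ t.1 = (q.1, q.2) ∧ (p : ℤ) ∣ RR t ∧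
        |(t.2.1 : ℝ)| ≤ L ∧ |(t.2.2.1 : ℝ)| ≤ L' ∧ 0 < t.2.2.2 ∧ (t.2.2.2 : ℝ) ≤ V) →
      (F'.card : ℝ) ≤ CU / T * (L * L' + √(L * L' : ℝ) * NR L L' T p q.1 q.2 a) := by
    intro q hq
    rw [hW, mem_filter] at hq
    obtain ⟨hq1, hq2⟩ := hq
    unfold pairs at hq1
    rw [mem_filter, mem_product, mem_Icc, mem_Icc] at hq1
    obtain ⟨⟨⟨hn1, hnN⟩, hk1, hkK⟩, hNn, hKk, hco, -⟩ := hq1
    obtain ⟨a, ha1, ha2⟩ := hU q.1 q.2 p hn1 hk1 hp1 (Nat.Coprime.mul_right hco hq2)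
    refine ⟨a, ha1, ?_⟩
    intro F' hF'
    refine ha2 L L' T V F' hRB.L1 hRB.L1' hRB.T1 hV ?_ hF'
    have hNn' : (N : ℝ) ≤ 2 * q.1 := by exact_mod_cast hNn.le
    have hKk' : (K : ℝ) ≤ 2 * q.2 := by exact_mod_cast hKk.le
    have e0 : (N : ℝ) ^ 3 ≤ (2 * q.1) ^ 3 := pow_le_pow_left₀ hN0.le hNn' 3
    have e1 : (p : ℝ) * ((N : ℝ) ^ 3 * K) ≤ p * ((2 * q.1) ^ 3 * (2 * q.2)) := by
      gcongr
    have e2 : (p : ℝ) * ((2 * q.1) ^ 3 * (2 * q.2)) = 16 * ((q.1 : ℝ) ^ 3 * q.2 * p) := by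
      ring
    have e3 : 64 * (T : ℝ) * V = 16 * (4 * T * V) := by ring
    linarith
  choose! a ha using hex
  -- the maps
  have hmaps : ∀ t ∈ F, t.1 ∈ W := by
    intro t ht
    obtain ⟨h1, ⟨h2, h3, h4, h5⟩, h6, h7, -⟩ := hF t ht
    rw [hW, mem_filter]
    refine ⟨?_, ((Nat.Prime.coprime_iff_not_dvd hp).2 h7).symm⟩
    unfold pairs
    rw [mem_filter, mem_product, mem_Icc, mem_Icc]
    exact ⟨⟨⟨h1.n1, h3⟩, ⟨h1.k1, h5⟩⟩, h2, h4, h1.co, one_dvd _⟩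
  have hcard : F.card = ∑ q ∈ W, (F.filter (fun t => t.1 = q)).card :=
    card_eq_sum_card_fiberwise (f := fun t : Tpl => t.1) (fun t ht => hmaps t ht)
  have hsum : (F.card : ℝ) ≤ ∑ q ∈ W, CU / T * (L * L' + √(L * L' : ℝ) * NR L L' T p q.1 q.2 (a q)) := by
    rw [hcard]
    push_cast
    apply sum_le_sum
    intro q hq
    refine (ha q hq).2 _ ?_
    intro t ht
    rw [mem_filter] at ht
    obtain ⟨ht1, ht2⟩ := ht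
    obtain ⟨h1, -, h6, -, h8, h9, h10, h11⟩ := hF t ht1
    exact ⟨h1, ht2, h6, h8, h9, h10, h11⟩
  -- the number of pairs
  have hWc : (W.card : ℝ) ≤ (N : ℝ) * K := by
    have h1 : W ⊆ Icc 1 N ×ˢ Icc 1 K := by
      intro q hq
      have h2 := hWsub hq
      unfold pairs at h2
      rw [mem_filter] at h2
      exact h2.1
    have h3 := card_le_card h1
    rw [card_product, Nat.card_Icc, Nat.card_Icc, Nat.add_sub_cancel, Nat.add_sub_cancel] at h3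
    exact_mod_cast h3
  -- the sum of the near points
  have hNS := hS N K L L' T p b ρ hRB hp1 W a hWsub (fun q hq => (ha q hq).1)
  have hbT : b ^ B * (T : ℝ) ^ (-τ) ≤ 1 := by
    rw [Real.rpow_neg hT0.le, ← div_eq_mul_inv, div_le_one (Real.rpow_pos_of_pos hT0 _)]
    exact hbB
  obtain ⟨R, hR⟩ : ∃ R : ℝ, R = ρ ^ (3 / 2 : ℝ) * ((T : ℝ) ^ (5 / 4 : ℝ) + N * K * (T : ℝ) ^ (1 / 4 : ℝ)) :=
    ⟨_, rfl⟩
  rw [← hR] at hNS ⊢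
  have hR0 : 0 ≤ R := by
    have g1 : 0 ≤ ρ ^ (3 / 2 : ℝ) := Real.rpow_nonneg hρ _
    have g2 : 0 ≤ (T : ℝ) ^ (5 / 4 : ℝ) := Real.rpow_nonneg hT0.le _
    have g3 : 0 ≤ (T : ℝ) ^ (1 / 4 : ℝ) := Real.rpow_nonneg hT0.le _
    rw [hR]
    positivity
  have hM0 : 0 ≤ (T : ℝ) * (N * K) := by positivity
  have hNS2 : ∑ q ∈ W, NR L L' T p q.1 q.2 (a q) ≤ 2 * CS * (T * (N * K) + R) := by
    refine hNS.trans ?_
    have g2 : (T : ℝ) * (N * K) + R * (1 + b ^ B * (T : ℝ) ^ (-τ)) ≤ 2 * (T * (N * K) + R) := by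
      have : R * (1 + b ^ B * (T : ℝ) ^ (-τ)) ≤ R * 2 := mul_le_mul_of_nonneg_left (by linarith) hR0
      linarith
    calc CS * (T * (N * K) + R * (1 + b ^ B * (T : ℝ) ^ (-τ)))
        ≤ CS * (2 * (T * (N * K) + R)) := mul_le_mul_of_nonneg_left g2 (by linarith)
      _ = 2 * CS * (T * (N * K) + R) := by ring
  -- the final computation
  refine hsum.trans ?_
  have hfin : ∑ q ∈ W, CU / T * (L * L' + √(L * L' : ℝ) * NR L L' T p q.1 q.2 (a q)) =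
      CU / T * ((W.card : ℝ) * (L * L') + √(L * L' : ℝ) * ∑ q ∈ W, NR L L' T p q.1 q.2 (a q)) := by
    rw [← mul_sum, sum_add_distrib, sum_const, nsmul_eq_mul, ← mul_sum]
  rw [hfin]
  have hQ0 : 0 ≤ √(L * L' : ℝ) := Real.sqrt_nonneg _
  have hLL : 0 ≤ (L : ℝ) * L' := by positivity
  have hCU0 : 0 ≤ CU := by linarith
  calc CU / T * ((W.card : ℝ) * (L * L') + √(L * L' : ℝ) * ∑ q ∈ W, NR L L' T p q.1 q.2 (a q))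
      ≤ CU / T * ((N : ℝ) * K * (L * L') +
        √(L * L' : ℝ) * (2 * CS * (T * (N * K) + R))) := by gcongr
    _ = _ := by
        field_simp

/-- `Rg` is monotone -/
theorem RUF_Rg (η η' N Y Y₂ : ℝ) (hη : η ≤ η') (hN : 1 ≤ N) (hY : 0 ≤ Y) (h : Rg η N Y Y₂) :
    Rg η' N Y Y₂ := by
  obtain ⟨h1, h2, h3, h4⟩ := h
  refine ⟨h1, le_trans h2 ?_, h3, le_trans ?_ h4⟩
  · exact mul_le_mul_of_nonneg_right (Real.rpow_le_rpow_of_exponent_le hN hη) hY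
  · exact Real.rpow_le_rpow_of_exponent_le hN (by linarith)

open Classical in
theorem RUF (hRPC : RPC_stmt) (hRSN : RSN_stmt) (hRNU : RNU_stmt) (hCZ : CZ_stmt)
    (hCBR : CBR_stmt) (hESZ : ESZ_stmt) : RUF_stmt := by
  rintro ⟨y₀, B, C₀, τ, hy₀, hC₀, hτ, hτ1, hLFS⟩
  obtain ⟨C₂, C₃, hC₂, hC₃, hblk⟩ := RUF_blk hRPC hRSN y₀ B C₀ τ hy₀ hC₀ hτ hτ1 hLFS
  obtain ⟨η, hη, hη1, hU⟩ := hRNU B τ hτ
  refine ⟨η, hη, hη1, ?_⟩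
  intro κ hκ hκ1
  obtain ⟨C₁, N₀, hC₁, hU⟩ := hU κ hκ hκ1
  obtain ⟨C₅, hC₅, hCB⟩ := hCBR κ hκ hκ1
  obtain ⟨N₀', hZ⟩ := hESZ (1 / κ ^ 2)
  have h1 : 1 ≤ C₅ * C₁ := one_le_mul_of_one_le_of_one_le hC₅ hC₁
  refine ⟨C₅ * C₁ * (C₂ + C₃), max (max N₀ N₀') 1, by nlinarith, ?_⟩
  intro N Y Y₂ hN hRg p hp hpN F hF
  have hN0 : N₀ ≤ N := le_trans (le_trans (le_max_left _ _) (le_max_left _ _)) hN
  have hN0' : N₀' ≤ N := le_trans (le_trans (le_max_right _ _) (le_max_left _ _)) hN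
  have hN1 : 1 ≤ N := le_trans (le_max_right _ _) hN
  have hNp : 0 < N := by linarith
  have hP : 0 < Y * Y₂ := lt_of_lt_of_le (Real.rpow_pos_of_pos hNp _) hRg.r4
  have hp1 : 1 ≤ p := hp.one_lt.le
  have hpR : (0 : ℝ) < p := by exact_mod_cast hp1
  obtain ⟨S, hS⟩ : ∃ S : ℝ, S = Y * Y₂ / N := ⟨_, rfl⟩
  have hS0 : 0 < S := by rw [hS]; exact div_pos hP hNp
  have hS32 : 0 ≤ S ^ (3 / 2 : ℝ) := Real.rpow_nonneg hS0.le _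
  have hp34 : 0 ≤ (p : ℝ) ^ (3 / 4 : ℝ) := Real.rpow_nonneg hpR.le _
  have hE0 : 0 ≤ S ^ (3 / 2 : ℝ) * (p : ℝ) ^ (3 / 4 : ℝ) * (1 + p * S) := by positivity
  rw [← hS]
  have hC0 : 0 ≤ C₅ * C₁ * (C₂ + C₃) := by
    have : 0 ≤ C₅ * C₁ := by linarith
    exact mul_nonneg this (by linarith)
  rcases F.eq_empty_or_nonempty with hE | ⟨t₀, ht₀⟩
  · rw [hE]
    simp only [Finset.card_empty, Nat.cast_zero]
    have : 0 ≤ 1 / (p : ℝ) := by positivity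
    exact mul_nonneg (mul_nonneg hC0 hP.le) (by linarith)
  have hY0 : 0 < Y := by
    have h := (hF t₀ ht₀).1
    have h1 := h.z1
    have h2 := h.z2
    linarith
  have hκ2 : 0 < κ ^ 2 := by positivity
  have hκ21 : κ ^ 2 ≤ 1 := pow_le_one₀ hκ.le hκ1
  have hX : 1 ≤ 1 / κ ^ 2 := by
    rw [le_div_iff₀ hκ2]; linarith
  obtain ⟨-, z1, z2, z3, z4, -, -⟩ := hZ N Y Y₂ hN0' (RUF_Rg η (1 / 100) N Y Y₂ hη1 hN1 hY0.le hRg)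
  have hY1 : 1 ≤ Y := le_trans hX z1
  have hY₂1 : 1 ≤ Y₂ := le_trans hX z2
  have hs1 : 1 ≤ κ ^ 2 * sN N Y Y₂ := by
    rw [div_le_iff₀ hκ2] at z3
    linarith
  have hs2 : 1 ≤ κ ^ 2 * sK N Y Y₂ := by
    rw [div_le_iff₀ hκ2] at z4
    linarith
  -- one block
  have hmain : (F.card : ℝ) ≤ C₅ * (C₂ * (C₁ * (Y * Y₂ / p)) +
      C₃ * (C₁ * ((Y * Y₂) * (S ^ (3 / 2 : ℝ) * (p : ℝ) ^ (3 / 4 : ℝ) * (1 + p * S))))) := by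
    refine hCB N Y Y₂ hN1 hY1 hY₂1 hs1 hs2 F (fun t ht => (hF t ht).1) _ (by positivity) ?_
    intro N₁ K₁ hN₁ hK₁ hBlk F' hF' hF''
    obtain ⟨L, L', T, b, ρ, w3, w4, w5, w6, w7, w8, w9⟩ := hU N Y Y₂ hN0 hRg p hp1 hpN N₁ K₁ hBlk
    have key := hblk N₁ K₁ L L' T p b ρ Y w3 hp w4 hY0 w5 F' (by
      intro t ht
      have ht' := hF' ht
      obtain ⟨f1, f2, f3⟩ := hF t ht'
      obtain ⟨-, -, -, -, c5, c6, c7, -⟩ := hCZ κ N Y Y₂ t hκ hκ1 hN1 hY1 hY₂1 f1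
      exact ⟨f1.tt, hF'' t ht, f2, f3, by linarith, by linarith, c7, f1.z2⟩)
    refine key.trans ?_
    rw [← hS] at w9
    have g1 := mul_le_mul_of_nonneg_left w8 (show (0 : ℝ) ≤ C₂ by linarith)
    have g2 := mul_le_mul_of_nonneg_left w9 (show (0 : ℝ) ≤ C₃ by linarith)
    exact add_le_add g1 g2
  refine hmain.trans ?_
  have e1 : C₅ * (C₂ * (C₁ * (Y * Y₂ / p)) +
      C₃ * (C₁ * ((Y * Y₂) * (S ^ (3 / 2 : ℝ) * (p : ℝ) ^ (3 / 4 : ℝ) * (1 + p * S))))) =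
      (C₅ * C₁) * (Y * Y₂) * (C₂ * (1 / p) +
        C₃ * (S ^ (3 / 2 : ℝ) * (p : ℝ) ^ (3 / 4 : ℝ) * (1 + p * S))) := by
    ring
  have e2 : C₅ * C₁ * (C₂ + C₃) * (Y * Y₂) * (1 / p + S ^ (3 / 2 : ℝ) * (p : ℝ) ^ (3 / 4 : ℝ) * (1 + p * S)) =
      (C₅ * C₁) * (Y * Y₂) * ((C₂ + C₃) * (1 / p) +
        (C₂ + C₃) * (S ^ (3 / 2 : ℝ) * (p : ℝ) ^ (3 / 4 : ℝ) * (1 + p * S))) := by
    ring
  rw [e1, e2]
  refine mul_le_mul_of_nonneg_left ?_ (mul_nonneg (by linarith) hP.le)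
  have g3 : 0 ≤ 1 / (p : ℝ) := by positivity
  exact add_le_add (mul_le_mul_of_nonneg_right (by linarith) g3)
    (mul_le_mul_of_nonneg_right (by linarith) hE0)

end Pool.Agent.T7
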